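import Mathlib

open Set Filter Topology Cardinal Ordinal

namespace Pool.Agent.Results.MP_8301b4_gt.No

/-- Eberlein-Grothendieck: `X` embeds into `C_p(K)` (continuous real functions on `K` with the
pointwise topology) for some compact Hausdorff `K`. -/
def IsEG (X : Type) [TopologicalSpace X] : Prop :=
  ∃ (K : Type) (_ : TopologicalSpace K), CompactSpace K ∧ T2Space K ∧
    ∃ e : X → C(K, ℝ), IsEmbedding (fun x => (e x : K → ℝ))

/-- `𝒱` is a point-countable open refinement (a cover) of the family `𝒰`. -/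
def IsPCRefinement {Y : Type} [TopologicalSpace Y] (𝒰 𝒱 : Set (Set Y)) : Prop :=
  (∀ V ∈ 𝒱, IsOpen V) ∧ ⋃₀ 𝒱 = Set.univ ∧ (∀ V ∈ 𝒱, ∃ U ∈ 𝒰, V ⊆ U) ∧
    ∀ y, {V | V ∈ 𝒱 ∧ y ∈ V}.Countable

/-- Every open cover has a point-countable open refinement. -/
def PCRefinable (Y : Type) [TopologicalSpace Y] : Prop :=
  ∀ 𝒰 : Set (Set Y), (∀ U ∈ 𝒰, IsOpen U) → ⋃₀ 𝒰 = Set.univ → ∃ 𝒱, IsPCRefinement 𝒰 𝒱

/-- Every nonempty subset has a point isolated in it. -/
def Scattered (X : Type) [TopologicalSpace X] : Prop :=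
  ∀ S : Set X, S.Nonempty → ∃ x ∈ S, ¬ AccPt x (𝓟 S)

/-- The Cantor-Bendixson derivative `X^(α)`. -/
def cb (X : Type) [TopologicalSpace X] (α : Ordinal.{0}) : Set X :=
  CantorBendixson.iteratedDerivedSet (Set.univ : Set X) α

/-- The scattering level `X^(α) \ X^(α+1)`. -/
def level (X : Type) [TopologicalSpace X] (α : Ordinal.{0}) : Set X :=
  cb X α \ cb X (α + 1)

/-- `V_x`: the union of all members of `𝒱` containing `x`. -/
def star {X : Type} (𝒱 : Set (Set X)) (x : X) : Set X :=
  ⋃₀ {V | V ∈ 𝒱 ∧ x ∈ V}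

/-- The poset `P` (ordered by reverse inclusion). -/
def poset {X : Type} (𝒱 : Set (Set X)) : Set (Set X) :=
  {p | p.Finite ∧ ∀ x ∈ p, star 𝒱 x ∩ p = {x}}

/-! ### General lemmas -/

theorem isEG_of_metric (X : Type) [MetricSpace X] : IsEG X := by
  let S : Set (X → ℝ) := {f | (∀ x, f x ∈ Icc (0 : ℝ) 1) ∧ ∀ x y, |f x - f y| ≤ dist x y}
  have hS : IsCompact S := by
    have h1 : IsCompact (Set.pi Set.univ (fun _ : X => Icc (0 : ℝ) 1)) :=
      isCompact_univ_pi (fun _ => isCompact_Icc)
    refine h1.of_isClosed_subset ?_ (fun f hf x _ => hf.1 x)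
    have e : S = (⋂ x, {f : X → ℝ | f x ∈ Icc (0 : ℝ) 1}) ∩
        ⋂ x, ⋂ y, {f : X → ℝ | |f x - f y| ≤ dist x y} := by
      ext f; simp [S]
    rw [e]
    refine IsClosed.inter (isClosed_iInter fun x => ?_)
      (isClosed_iInter fun x => isClosed_iInter fun y => ?_)
    · exact isClosed_Icc.preimage (continuous_apply x)
    · exact isClosed_le (by fun_prop) continuous_const
  refine ⟨S, inferInstance, isCompact_iff_compactSpace.1 hS, inferInstance,
    fun x => ⟨fun f => f.1 x, (continuous_apply x).comp continuous_subtype_val⟩, ?_⟩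
  have hcont : Continuous (fun x : X => (fun f : S => f.1 x)) := by
    refine continuous_pi fun f => ?_
    refine (LipschitzWith.of_dist_le_mul (K := 1) fun x y => ?_).continuous
    simpa [Real.dist_eq] using f.2.2 x y
  have hind : IsInducing (fun x : X => (fun f : S => f.1 x)) := by
    rw [isInducing_iff_nhds]
    intro x
    refine le_antisymm (tendsto_iff_comap.1 (hcont.tendsto x)) ?_
    intro s hs
    obtain ⟨ε, hε, hεs⟩ := Metric.mem_nhds_iff.1 hs
    let g : S := ⟨fun y => min 1 (dist y x), fun y => ⟨le_min zero_le_one dist_nonneg,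
      min_le_left _ _⟩, fun y z => by
        have h1 := abs_min_sub_min_le_max (1 : ℝ) (dist y x) 1 (dist z x)
        have h2 := abs_dist_sub_le y z x
        refine h1.trans (max_le (by simp) h2)⟩
    refine mem_comap.2 ⟨{φ | φ g < min 1 ε}, ?_, ?_⟩
    · refine (isOpen_lt (continuous_apply g) continuous_const).mem_nhds ?_
      simp [g, hε]
    · intro y hy
      apply hεs
      have hy' : min 1 (dist y x) < min 1 ε := hy
      rw [Metric.mem_ball]
      by_contra hc
      push Not at hc
      exact absurd hy' (not_lt.2 (min_le_min le_rfl hc))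
  exact hind.isEmbedding

theorem pcRefinable_of_paracompact (Y : Type) [TopologicalSpace Y] [ParacompactSpace Y] :
    PCRefinable Y := by
  intro 𝒰 ho hc
  obtain ⟨v, hvo, hvc, hvl, hvs⟩ := precise_refinement (fun U : 𝒰 => (U : Set Y))
    (fun U => ho U U.2) (by rw [← sUnion_eq_iUnion]; exact hc)
  refine ⟨range v, ?_, ?_, ?_, ?_⟩
  · rintro _ ⟨U, rfl⟩; exact hvo U
  · rw [sUnion_range]; exact hvc
  · rintro _ ⟨U, rfl⟩; exact ⟨U, U.2, hvs U⟩
  · intro y
    have := (hvl.point_finite y).image v
    refine (this.subset ?_).countable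
    rintro _ ⟨⟨U, rfl⟩, hy⟩
    exact ⟨U, hy, rfl⟩

/-! ### The space -/

abbrev W : Type := (ω_ 1 : Ordinal.{0}).ToType

/-- Letters. -/
def D : Type := Option (W × W)

instance : TopologicalSpace D := ⊥
instance : DiscreteTopology D := ⟨rfl⟩

/-- The space of decreasing words. -/
def XS : Set (ℕ → D) :=
  {f | f 0 ≠ none ∧ ∀ i j a b, i < j → f i = some a → f j = some b → b.1 < a.1}

abbrev X : Type := XS

noncomputable def o (w : W) : Ordinal.{0} := (Ordinal.ToType.toOrd w : Iio (ω_ 1 : Ordinal.{0}))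

theorem o_lt (w : W) : o w < ω_ 1 := (Ordinal.ToType.toOrd w).2

theorem o_lt_o {v w : W} : o v < o w ↔ v < w := by
  unfold o
  rw [Subtype.coe_lt_coe]
  exact Ordinal.ToType.mk.symm.lt_iff_lt

theorem o_surj {α : Ordinal.{0}} (h : α < ω_ 1) : ∃ w, o w = α :=
  ⟨Ordinal.ToType.mk ⟨α, h⟩, by simp [o]⟩

theorem exists_last (x : X) : ∃ i a, x.1 i = some a ∧ ∀ j, i < j → x.1 j = none := by
  have hne : {w : W | ∃ i a, x.1 i = some a ∧ a.1 = w}.Nonempty := by
    obtain ⟨a, ha⟩ := Option.ne_none_iff_exists'.1 x.2.1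
    exact ⟨a.1, 0, a, ha, rfl⟩
  obtain ⟨w, ⟨i, a, ha, rfl⟩, hmin⟩ := wellFounded_lt.has_min _ hne
  refine ⟨i, a, ha, fun j hj => ?_⟩
  by_contra hc
  obtain ⟨b, hb⟩ := Option.ne_none_iff_exists'.1 hc
  exact hmin b.1 ⟨j, b, hb, rfl⟩ (x.2.2 i j a b hj ha hb)

noncomputable def last (x : X) : ℕ := (exists_last x).choose
noncomputable def lab (x : X) : W × W := (exists_last x).choose_spec.choose
theorem last_eq (x : X) : x.1 (last x) = some (lab x) :=
  (exists_last x).choose_spec.choose_spec.1
theorem last_none (x : X) {j : ℕ} (h : last x < j) : x.1 j = none :=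
  (exists_last x).choose_spec.choose_spec.2 j h

/-- rank -/
noncomputable def rk (x : X) : Ordinal.{0} := o (lab x).1

theorem rk_le (x : X) {i : ℕ} {a : W × W} (h : x.1 i = some a) : rk x ≤ o a.1 := by
  rcases lt_trichotomy i (last x) with hi | hi | hi
  · exact (o_lt_o.2 (x.2.2 i (last x) a (lab x) hi h (last_eq x))).le
  · subst hi
    have := (last_eq x).symm.trans h
    have h2 : lab x = a := Option.some.inj this
    rw [rk, h2]
  · rw [last_none x hi] at h; cases h

/-- cylinder -/
def cyl (x : X) (n : ℕ) : Set X := {g | ∀ i ≤ n, g.1 i = x.1 i}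

theorem isOpen_cyl (x : X) (n : ℕ) : IsOpen (cyl x n) := by
  have e : cyl x n = ⋂ i ∈ Iic n, {g : X | g.1 i = x.1 i} := by
    ext g; simp [cyl]
  rw [e]
  refine (finite_Iic n).isOpen_biInter fun i _ => ?_
  have hc : Continuous (fun g : X => g.1 i) := (continuous_apply i).comp continuous_subtype_val
  exact (isOpen_discrete {x.1 i}).preimage hc

theorem mem_cyl (x : X) (n : ℕ) : x ∈ cyl x n := fun _ _ => rfl

theorem exists_cyl {x : X} {s : Set X} (hs : s ∈ 𝓝 x) : ∃ n, cyl x n ⊆ s := by
  rw [nhds_subtype, mem_comap] at hs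
  obtain ⟨t, ht, hts⟩ := hs
  rw [nhds_pi, Filter.mem_pi] at ht
  obtain ⟨I, hI, u, hu, hut⟩ := ht
  obtain ⟨n, hn⟩ := hI.bddAbove
  refine ⟨n, fun g hg => hts (hut fun i hi => ?_)⟩
  rw [hg i (hn hi)]
  exact mem_of_mem_nhds (hu i)

theorem rk_lt_of_cyl {x g : X} (hg : g ∈ cyl x (last x)) (hne : g ≠ x) : rk g < rk x := by
  have : ∃ j, g.1 j ≠ x.1 j := by
    by_contra hc
    push Not at hc
    exact hne (Subtype.ext (funext hc))
  obtain ⟨j, hj⟩ := this
  have hlt : last x < j := by
    by_contra hc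
    exact hj (hg j (not_lt.1 hc))
  rw [last_none x hlt] at hj
  obtain ⟨b, hb⟩ := Option.ne_none_iff_exists'.1 hj
  have h1 : g.1 (last x) = some (lab x) := (hg _ le_rfl).trans (last_eq x)
  exact (rk_le g hb).trans_lt (o_lt_o.2 (g.2.2 _ _ _ _ hlt h1 hb))

open Classical in
/-- extension of a word by one letter -/
noncomputable def ext (x : X) (m : ℕ) (b : W × W) (hm : last x < m) (hb : b.1 < (lab x).1) : X :=
  ⟨Function.update x.1 m (some b), by
    refine ⟨?_, ?_⟩
    · rw [Function.update_of_ne (by omega)]; exact x.2.1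
    · intro i j a c hij ha hc
      by_cases hi : i = m
      · subst hi
        rw [Function.update_of_ne (by omega), last_none x (by omega)] at hc
        cases hc
      · rw [Function.update_of_ne hi] at ha
        by_cases hj : j = m
        · subst hj
          rw [Function.update_self] at hc
          have hc' : b = c := Option.some.inj hc
          subst hc'
          exact o_lt_o.1 ((o_lt_o.2 hb).trans_le (rk_le x ha))
        · rw [Function.update_of_ne hj] at hc
          exact x.2.2 i j a c hij ha hc⟩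

theorem ext_self (x : X) (m b hm hb) : (ext x m b hm hb).1 m = some b := by
  simp [ext]

theorem ext_ne (x : X) (m b hm hb) {i : ℕ} (hi : i ≠ m) : (ext x m b hm hb).1 i = x.1 i := by
  simp [ext, Function.update_of_ne hi]

theorem rk_ext (x : X) (m b hm hb) : rk (ext x m b hm hb) = o b.1 := by
  refine le_antisymm (rk_le _ (ext_self x m b hm hb)) ?_
  have h := last_eq (ext x m b hm hb)
  by_cases hi : last (ext x m b hm hb) = m
  · rw [hi, ext_self] at h
    have h' : b = lab (ext x m b hm hb) := Option.some.inj h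
    rw [rk, ← h']
  · rw [ext_ne _ _ _ _ _ hi] at h
    exact (o_lt_o.2 hb).le.trans (rk_le x h)

theorem ext_mem_cyl (x : X) (m b hm hb) {n : ℕ} (hn : n < m) : ext x m b hm hb ∈ cyl x n :=
  fun i hi => ext_ne x m b hm hb (by omega)

theorem ext_ne_self (x : X) (m b hm hb) : ext x m b hm hb ≠ x := by
  intro h
  have h1 := ext_self x m b hm hb
  rw [h, last_none x hm] at h1
  cases h1

theorem not_accPt {x : X} {S : Set X} (h : ∀ g ∈ S, rk x ≤ rk g) : ¬ AccPt x (𝓟 S) := by
  rw [accPt_iff_nhds]
  intro hc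
  obtain ⟨g, ⟨hg1, hg2⟩, hne⟩ := hc _ ((isOpen_cyl x (last x)).mem_nhds (mem_cyl x _))
  exact absurd (rk_lt_of_cyl hg1 hne) (not_lt.2 (h g hg2))

theorem cb_eq (α : Ordinal.{0}) : cb X α = {x | α ≤ rk x} := by
  unfold cb
  induction α using Ordinal.limitRecOn with
  | zero => rw [CantorBendixson.iteratedDerivedSet_zero]; ext; simp
  | add_one a ih =>
    rw [CantorBendixson.iteratedDerivedSet_succ, ih, relDerivedSet_apply]
    ext x
    simp only [mem_inter_iff, mem_derivedSet, mem_ofPred_eq, Order.add_one_le_iff]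
    constructor
    · rintro ⟨h1, h2⟩
      by_contra hc
      exact not_accPt (fun g (hg : a ≤ rk g) => (not_lt.1 hc).trans hg) h1
    · intro h
      refine ⟨?_, h.le⟩
      rw [accPt_iff_nhds]
      intro s hs
      obtain ⟨n, hn⟩ := exists_cyl hs
      obtain ⟨w, hw⟩ := o_surj (h.trans (o_lt (lab x).1))
      have hb : (w, w).1 < (lab x).1 := o_lt_o.1 (by rw [hw]; exact h)
      refine ⟨ext x (last x + n + 1) (w, w) (by omega) hb,
        ⟨hn (ext_mem_cyl _ _ _ _ _ (by omega)), ?_⟩, ext_ne_self _ _ _ _ _⟩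
      change a ≤ rk _
      rw [rk_ext, hw]
  | limit a ha ih =>
    rw [CantorBendixson.iteratedDerivedSet_limit ha]
    ext x
    simp only [mem_iInter, mem_ofPred_eq, Subtype.forall, mem_Iio]
    constructor
    · intro h
      by_contra hc
      have h1 : rk x + 1 < a := ha.add_one_lt (not_le.1 hc)
      have h2 := h _ h1
      rw [ih _ h1] at h2
      have h3 : rk x + 1 ≤ rk x := h2
      exact absurd (Order.add_one_le_iff.1 h3) (lt_irrefl _)
    · intro h b hb
      rw [ih _ hb]
      exact hb.le.trans h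

open Classical in
/-- one-letter word -/
noncomputable def single (a : W × W) : X :=
  ⟨fun i => if i = 0 then some a else none, by
    refine ⟨by simp, fun i j b c hij _ hc => ?_⟩
    have hj : ¬ j = 0 := by omega
    simp only [if_neg hj] at hc
    cases hc⟩

theorem single_zero (a : W × W) : (single a).1 0 = some a := by simp [single]

theorem lab_single (a : W × W) : lab (single a) = a := by
  have h := last_eq (single a)
  by_cases h0 : last (single a) = 0
  · rw [h0, single_zero] at h
    exact (Option.some.inj h).symm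
  · have h1 : ∀ i, ¬ i = 0 → (single a).1 i = none := fun i hi => if_neg hi
    rw [h1 _ h0] at h
    cases h

theorem mk_W : #W = ℵ₁ := by
  rw [Cardinal.mk_toType]; simp

theorem mk_X : #X = ℵ₁ := by
  apply le_antisymm
  · have hD : #D = ℵ₁ := by
      change #(Option (W × W)) = ℵ₁
      rw [mk_option, mk_prod]
      simp only [Cardinal.lift_id, mk_W]
      rw [Cardinal.mul_eq_self (aleph0_le_aleph 1),
        Cardinal.add_one_eq (aleph0_le_aleph 1)]
    have hinf : Infinite D := by
      rw [Cardinal.infinite_iff, hD]; exact aleph0_le_aleph 1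
    have hinj : Function.Injective
        (fun x : X => List.ofFn (fun i : Fin (last x + 1) => x.1 i)) := by
      intro x y hxy
      have hl : last x + 1 = last y + 1 := by
        have := congrArg List.length hxy
        simpa using this
      have hl' : last x = last y := by omega
      apply Subtype.ext
      funext i
      by_cases hi : i ≤ last x
      · have := congrArg (fun l => l[i]?) hxy
        simp only [List.getElem?_ofFn] at this
        rw [dif_pos (by omega), dif_pos (by omega)] at this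
        exact Option.some.inj this
      · rw [last_none x (by omega), last_none y (by omega)]
    have := Cardinal.mk_le_of_injective hinj
    rwa [mk_list_eq_mk, hD] at this
  · rw [← mk_W]
    refine Cardinal.mk_le_of_injective (f := fun w => single (w, w)) fun v w h => ?_
    have := congrArg lab h
    simp only [lab_single] at this
    exact congrArg Prod.fst this

theorem result :
    ∃ (X : Type) (_ : TopologicalSpace X), T35Space X ∧ IsEG X ∧
      (∀ Y : Set X, PCRefinable Y) ∧ Scattered X ∧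
      IsLeast {α : Ordinal.{0} | cb X α = ∅} (ω_ 1) ∧ #X = ℵ₁ ∧
      ∃ (U : X → Set X) (𝒱 : Set (Set X)),
        (∀ x, IsOpen (U x)) ∧ (∀ x α, x ∈ level X α → U x ∩ level X α = {x}) ∧
        (∀ x, x ∈ U x) ∧ IsPCRefinement (range U) 𝒱 ∧
        ∃ A ⊆ poset 𝒱, ¬ A.Countable ∧
          A.Pairwise (fun p q => ¬ ∃ r ∈ poset 𝒱, p ⊆ r ∧ q ⊆ r) := by
  have hmet : TopologicalSpace.MetrizableSpace X := inferInstance
  refine ⟨X, inferInstance, inferInstance, ?_, ?_, ?_, ⟨?_, ?_⟩, mk_X,
    fun x => cyl x (last x), range (fun x => cyl x (last x)), fun x => isOpen_cyl x _, ?_,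
    fun x => mem_cyl x _, ⟨?_, ?_, ?_, ?_⟩, ?_⟩
  · let m : MetricSpace X := TopologicalSpace.metrizableSpaceMetric X
    exact isEG_of_metric X
  · intro Y
    let m : MetricSpace Y := TopologicalSpace.metrizableSpaceMetric Y
    exact pcRefinable_of_paracompact Y
  · intro S hS
    obtain ⟨x, hx, hmin⟩ := (InvImage.wf rk wellFounded_lt).has_min S hS
    exact ⟨x, hx, not_accPt fun g hg => not_lt.1 (hmin g hg)⟩
  · change cb X _ = ∅
    rw [cb_eq]
    ext x
    simp only [mem_ofPred_eq, mem_empty_iff_false, iff_false, not_le]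
    exact o_lt _
  · intro α hα
    by_contra hc
    obtain ⟨w, hw⟩ := o_surj (not_le.1 hc)
    have h1 : single (w, w) ∈ cb X α := by
      rw [cb_eq]
      change α ≤ o (lab (single (w, w))).1
      rw [lab_single, hw]
    have hα' : cb X α = ∅ := hα
    rw [hα'] at h1
    exact h1
  · intro x α hx
    have hlev : ∀ y : X, y ∈ level X α ↔ rk y = α := by
      intro y
      simp only [level, cb_eq, Set.mem_sdiff, mem_ofPred_eq, Order.add_one_le_iff, not_lt]
      exact ⟨fun h => le_antisymm h.2 h.1, fun h => ⟨h.ge, h.le⟩⟩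
    ext g
    simp only [mem_inter_iff, mem_singleton_iff]
    constructor
    · rintro ⟨h1, h2⟩
      by_contra hne
      have := rk_lt_of_cyl h1 hne
      rw [(hlev _).1 h2, (hlev _).1 hx] at this
      exact lt_irrefl _ this
    · rintro rfl
      exact ⟨mem_cyl _ _, hx⟩
  · rintro _ ⟨x, rfl⟩; exact isOpen_cyl x _
  · rw [sUnion_range]
    exact eq_univ_of_forall fun x => mem_iUnion.2 ⟨x, mem_cyl x _⟩
  · intro V hV; exact ⟨V, hV, Subset.rfl⟩
  · intro y
    refine (countable_range (fun n => cyl y n)).mono ?_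
    rintro _ ⟨⟨x, rfl⟩, hy⟩
    refine ⟨last x, ?_⟩
    ext g
    constructor
    · intro hg i hi; exact (hg i hi).trans (hy i hi)
    · intro hg i hi; exact (hg i hi).trans (hy i hi).symm
  · obtain ⟨w0, hw0⟩ := o_surj (α := 0) (omega_pos 1)
    obtain ⟨w1, hw1⟩ := o_surj (α := 1) (one_lt_omega0.trans_le (omega0_le_omega 1))
    let z : X := single (w1, w1)
    have hb : ∀ ξ : W, (w0, ξ).1 < (lab z).1 := by
      intro ξ
      rw [lab_single]
      apply o_lt_o.1
      rw [hw0, hw1]; exact zero_lt_one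
    let p : W → X := fun ξ => ext z (last z + 1) (w0, ξ) (by omega) (hb ξ)
    have hp : Function.Injective p := by
      intro ξ η h
      have h1 := ext_self z (last z + 1) (w0, ξ) (by omega) (hb ξ)
      have h2 := ext_self z (last z + 1) (w0, η) (by omega) (hb η)
      change (p ξ).1 _ = _ at h1
      change (p η).1 _ = _ at h2
      rw [h, h2] at h1
      exact (congrArg Prod.snd (Option.some.inj h1)).symm
    have hpz : ∀ ξ, p ξ ∈ cyl z (last z) := fun ξ => ext_mem_cyl _ _ _ _ _ (by omega)
    refine ⟨range (fun ξ => {p ξ}), ?_, ?_, ?_⟩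
    · rintro _ ⟨ξ, rfl⟩
      refine ⟨finite_singleton _, ?_⟩
      intro x hx
      rw [mem_singleton_iff] at hx
      subst hx
      apply inter_eq_right.2
      rw [singleton_subset_iff]
      exact ⟨cyl z (last z), ⟨⟨z, rfl⟩, hpz ξ⟩, hpz ξ⟩
    · intro hc
      have hinj : Function.Injective (fun ξ => ({p ξ} : Set X)) :=
        fun ξ η h => hp (singleton_injective h)
      have h1 : Countable W := by
        have := hc.to_subtype
        exact (Equiv.ofInjective _ hinj).countable_iff.2 this
      have h2 := Cardinal.mk_le_aleph0_iff.2 h1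
      rw [mk_W] at h2
      exact absurd h2 (not_le.2 aleph0_lt_aleph_one)
    · rintro _ ⟨ξ, rfl⟩ _ ⟨η, rfl⟩ hne ⟨r, hr, h1, h2⟩
      rw [singleton_subset_iff] at h1 h2
      have h3 := hr.2 _ h1
      have h4 : p η ∈ star (range (fun x => cyl x (last x))) (p ξ) ∩ r :=
        ⟨⟨cyl z (last z), ⟨⟨z, rfl⟩, hpz ξ⟩, hpz η⟩, h2⟩
      rw [h3, mem_singleton_iff] at h4
      exact hne (by simp only [h4])

end Pool.Agent.Results.MP_8301b4_gt.No
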